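import Pool.Agent.helper82.OG.Spec

/-!
# Module RES of project og (MP_ebc808_nt): the golden ratio exponent for the odd values
-/

set_option autoImplicit false

open Finset

noncomputable section

namespace Pool.Agent.OG

open Pool.Agent.EP

private lemma RES_sO (x : ℕ) : (sO x : ℝ) ≤ x + 1 := by
  have h : sO x ≤ x + 1 := by
    unfold sO
    exact (card_filter_le _ _).trans (by rw [card_range])
  exact_mod_cast h

theorem RES (hCTR : CTR_stmt) : RES_stmt := by
  intro ε hε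
  obtain ⟨X₀, h0⟩ := hCTR (min ε (1 / 20)) (lt_min hε (by norm_num)) (min_le_right _ _)
  refine ⟨max X₀ 1, fun X hX => ?_⟩
  by_contra hno
  push Not at hno
  refine h0 X (le_trans (le_max_left _ _) hX) ?_
  have hX1 : (1 : ℝ) ≤ X := by exact_mod_cast le_trans (le_max_right _ _) hX
  have hB : (1 : ℝ) ≤ (X : ℝ) ^ (1 / 10 : ℝ) := Real.one_le_rpow hX1 (by norm_num)
  have h5 : (0 : ℝ) ≤ √5 := Real.sqrt_nonneg 5
  have hm := min_le_right ε (1 / 20)
  have hm' := min_le_left ε (1 / 20)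
  have hβ : 0 ≤ (1 + √5) / 4 - min ε (1 / 20) := by linarith
  intro x hx
  rcases le_or_gt ((X : ℝ) ^ (1 / 10 : ℝ)) x with h1 | h1
  · have h2 := hno x h1 hx
    have h3 : (x : ℝ) ^ ((1 + √5) / 4 - ε) ≤ (x : ℝ) ^ ((1 + √5) / 4 - min ε (1 / 20)) :=
      Real.rpow_le_rpow_of_exponent_le (hB.trans h1) (by linarith)
    linarith
  · have h2 := RES_sO x
    rcases Nat.eq_zero_or_pos x with hx0 | hx0
    · have h3 : 0 ≤ (x : ℝ) ^ ((1 + √5) / 4 - min ε (1 / 20)) :=
        Real.rpow_nonneg (Nat.cast_nonneg x) _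
      rw [hx0] at h2 h3 ⊢
      rw [Nat.cast_zero] at h2 h3 ⊢
      linarith
    · have h3 : 1 ≤ (x : ℝ) ^ ((1 + √5) / 4 - min ε (1 / 20)) :=
        Real.one_le_rpow (by exact_mod_cast hx0) hβ
      linarith

end Pool.Agent.OG
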